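import Pool.Agent.helper55.EV.Block2
import Pool.Agent.helper50.LT.GLdir

set_option autoImplicit false

/-!
# Artin groups with a block structure satisfy the Farrell-Jones conjecture

`FJClosed P` says that the class `P` of groups has inheritance properties which are known for the
class of Farrell-Jones groups. Let `M` be a Coxeter matrix with a block structure: the set of
generators (of arbitrary cardinality) is partitioned into blocks such that
* the labels between different blocks are even or `∞`,
* two different blocks commute (all labels between them are `2`), or no label between them is `2`.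
The blocks are the fibres of a function `b`. The theorem says: if the Artin group of every block is
two-dimensional (`1/m_rs + 1/m_st + 1/m_rt ≤ 1` for three generators with finite labels) or in `P`,
then the Artin group of `M` is in `P`. With a single block these are the two-dimensional Artin
groups, and with blocks which consist of one generator these are all even Artin groups (all labels
even or `∞`), of arbitrary dimension.

Outline of the proof. By a colimit argument the set `S` of generators is finite. Unions of blocks
are retracts: the other generators can be killed, since the labels between them are even. The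
two-dimensional Artin groups were treated by a team member (see helper34/FJ3), so the group of every
block is in `P`.
1. COMBINATION THEOREM for two blocks `X`, `Y` which do not commute (`S = X ∪ Y`). Let `A_S` act on
the hybrid complex: its vertices are the cosets of `1`, of `⟨s⟩` for `s ∈ S`, of `⟨x, y⟩` for
`x ∈ X`, `y ∈ Y` with finite label, and of `A_X` and `A_Y`; its triangles are right-angled, with the
right angle at the cosets of `⟨s⟩` and with the angle `π / (2 m_xy)` at the cosets of `⟨x, y⟩`
and `π / 4` at the cosets of `A_X` and `A_Y`. This 2-complex is simply connected, since every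
relation of `A_S` involves only two generators, and non-positively curved; the link condition at the
cosets of `A_X` says that a relation `x_1^k_1 x_2^k_2 x_3^k_3 = 1` between powers of three different
generators does not hold in `A_X`, which follows from a theorem of van der Lek about the standard
subgroups (it is proved here with a finite state machine).
2. GIRTH LEMMA: for two blocks `I`, `J` which do not commute, an alternating product
`a_1 b_1 … a_n b_n` of elements `a_i` of `A_(S-I)` and `b_i` of `A_(S-J)`, all outside `A_(S-I-J)`,
is non-trivial for `n < 4`. This is proved by induction. If there is a third block which does not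
commute with `I` or `J`, then an alternating relation gives a geodesic bigon, or a geodesic triangle
with right angles, in the CAT(0) development of a triangle of groups (see 3). Otherwise one reduces
to `S = I ∪ J`, and uses the geometry of the hybrid complex.
3. If no block has non-trivial labels with two other blocks, the group embeds in a product of groups
as in 1. Otherwise there are blocks `I, J, K` such that `I, J` and `J, K` do not commute, and `A_S`
acts on the development of the triangle of the groups `A_(S-I)`, `A_(S-J)`, `A_(S-K)`. This
2-complex is simply connected, and it is non-positively curved (right isosceles triangles with the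
right angle at the cosets of `A_(S-J)`) by the girth lemma.
4. A group which acts on a simply connected non-positively curved 2-complex is in `P` if for every
simplex there is a homomorphism to a group in `P` which is injective on the stabiliser of the
simplex: here one takes the retractions to the blocks, or to `A_(S-I)`, `A_(S-J)`, `A_(S-K)`, which
are in `P` by induction.
-/

namespace Pool.Agent.Results.MP_490288_al.BlockArtin

open Pool.Agent.helper34 Matrix
open Pool.Agent.helper34.FJ2 (Complex2 SimplyConnected NPC ActsProperly Cocompact)

/-- A class of (discrete) groups with known properties of the class of Farrell-Jones groups: it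
contains the abelian groups, the arithmetic groups `GL_n(ℤ[1/N])` and the groups acting properly
and cocompactly on 2-dimensional CAT(0) simplicial complexes, it is closed under subgroups,
overgroups of finite index, direct products of two groups and colimits of directed systems with
arbitrary structure maps, and it has the extension property. -/
structure FJClosed (P : ∀ (G : Type) [Group G], Prop) : Prop where
  /-- abelian groups -/
  abelian : ∀ (G : Type) [CommGroup G], P G
  /-- the `S`-arithmetic groups `GL_n(ℤ[1/N])` -/
  arithmetic : ∀ n N : ℕ, N ≠ 0 → P (GL (Fin n) (Localization.Away (N : ℤ)))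
  /-- groups acting properly and cocompactly on 2-dimensional CAT(0) simplicial complexes: simply
  connected, piecewise Euclidean, with the link condition -/
  catZero : ∀ (G V : Type) [Group G] [MulAction G V] (X : Complex2 V) (len : V → V → ℝ),
    SimplyConnected X → NPC X len → ActsProperly G X len → Cocompact G X → P G
  /-- subgroups -/
  subgroup : ∀ (G : Type) [Group G], P G → ∀ H : Subgroup G, P H
  /-- overgroups of finite index -/
  overgroup : ∀ (G : Type) [Group G] (H : Subgroup G), H.FiniteIndex → P H → P G
  /-- direct products -/
  product : ∀ (G H : Type) [Group G] [Group H], P G → P H → P (G × H)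
  /-- directed colimits: `L` with the maps `φ i` is a colimit of the directed system `(G, f)` when
  the `φ i` are compatible with the `f i j`, jointly surjective, and an element of `G i` dies in
  `L` only if it dies in some `G j`. -/
  colim : ∀ (ι : Type) [Preorder ι] [Nonempty ι] [IsDirectedOrder ι]
    (G : ι → Type) [∀ i, Group (G i)] (f : ∀ i j, i ≤ j → G i →* G j)
    (L : Type) [Group L] (φ : ∀ i, G i →* L),
    (∀ i x, f i i le_rfl x = x) →
    (∀ i j k (hij : i ≤ j) (hjk : j ≤ k) x, f j k hjk (f i j hij x) = f i k (hij.trans hjk) x) →
    (∀ i j (h : i ≤ j) x, φ j (f i j h x) = φ i x) →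
    (∀ y : L, ∃ i x, φ i x = y) →
    (∀ i x, φ i x = 1 → ∃ j, ∃ h : i ≤ j, f i j h x = 1) →
    (∀ i, P (G i)) → P L
  /-- the extension property: if `Q` and the preimages of all virtually cyclic subgroups of `Q`
  are in the class, then the source of the homomorphism is in the class -/
  extension : ∀ (G Q : Type) [Group G] [Group Q] (f : G →* Q), P Q →
    (∀ C : Subgroup Q, (∃ Z : Subgroup C, Z.FiniteIndex ∧ IsCyclic Z) → P (C.comap f)) → P G

/-- the alternating product `a b a b …` with `n` factors -/
def alternating {G : Type} [Group G] (a b : G) : ℕ → G
  | 0 => 1
  | n + 1 => a * alternating b a n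

/-- The Artin group of a Coxeter matrix `M`: the generators are the elements of `S`, and the
relations say that the alternating products `s t s …` and `t s t …` with `M s t` factors are equal
(no relation if `M s t = 0`, which stands for `∞`). -/
def ArtinGroup {S : Type} (M : CoxeterMatrix S) : Type :=
  PresentedGroup {x : FreeGroup S | ∃ s t : S,
    x = alternating (FreeGroup.of s) (FreeGroup.of t) (M s t) *
      (alternating (FreeGroup.of t) (FreeGroup.of s) (M s t))⁻¹}

instance {S : Type} (M : CoxeterMatrix S) : Group (ArtinGroup M) :=
  inferInstanceAs (Group (PresentedGroup _))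

/-- A block structure on the set of generators; the blocks are the fibres of `b`, and
`M s t = 0` stands for `m_st = ∞`. -/
structure BlockStructure {S ι : Type} (M : CoxeterMatrix S) (b : S → ι) : Prop where
  /-- the labels between different blocks are even or `∞` -/
  even : ∀ s t : S, b s ≠ b t → Even (M s t)
  /-- if a label between two different blocks is `2` then all labels between them are `2` -/
  commute : ∀ s s' t t' : S, b s = b s' → b t = b t' → b s ≠ b t → M s t = 2 → M s' t' = 2

/-- the Coxeter matrix of a block -/
def block {S ι : Type} (M : CoxeterMatrix S) (b : S → ι) (i : ι) :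
    CoxeterMatrix {s : S // b s = i} where
  M := M.M.submatrix (fun s => s.1) (fun s => s.1)
  isSymm := M.isSymm.submatrix _
  diagonal _ := M.diagonal _
  off_diagonal _ _ h := M.off_diagonal _ _ (fun h' => h (Subtype.ext h'))

/-- two-dimensional Artin groups: `1/m_rs + 1/m_st + 1/m_rt ≤ 1` for three different generators
with finite labels -/
def TwoDimensional {S : Type} (M : CoxeterMatrix S) : Prop :=
  ∀ r s t : S, r ≠ s → s ≠ t → r ≠ t → M r s ≠ 0 → M s t ≠ 0 → M r t ≠ 0 →
    (1 : ℚ) / (M r s : ℚ) + 1 / (M s t : ℚ) + 1 / (M r t : ℚ) ≤ 1

theorem alt_eq {G : Type} [Group G] (a b : G) (n : ℕ) :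
    alternating a b n = helper36.LT.alt a b n := by
  induction n generalizing a b with
  | zero => rfl
  | succ n ih =>
    show a * alternating b a n = a * helper36.LT.alt b a n
    rw [ih]

theorem closedLT {P : ∀ (G : Type) [Group G], Prop} (hP : FJClosed P) : helper36.LT.Closed P where
  cat := hP.catZero
  colim := hP.colim
  comm := hP.abelian
  subgroup := hP.subgroup
  overgroup := hP.overgroup
  extension := hP.extension

theorem closed {P : ∀ (G : Type) [Group G], Prop} (hP : FJClosed P) : FJ3.Closed P where
  cat := hP.catZero
  colim := hP.colim
  sub := fun G _ H h => hP.subgroup G h H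
  finIndex := fun G _ H hH h => hP.overgroup G H ⟨hH⟩ h
  prod := hP.product
  ext := by
    intro G Q _ _ ψ h hQ
    refine hP.extension G Q ψ hQ ?_
    rintro C ⟨Z, hZ, hc⟩
    obtain ⟨x, hx⟩ := hc.exists_generator
    refine h C ⟨((x : Z) : C), (x : C).2, ?_⟩
    have h1 : (Subgroup.zpowers (((x : Z) : C) : Q)).subgroupOf C = Z := by
      ext y
      rw [Subgroup.mem_subgroupOf]
      constructor
      · rintro ⟨j, hj⟩
        have h2 : y = ((x ^ j : Z) : C) := Subtype.ext (by simpa using hj.symm)
        rw [h2]
        exact (x ^ j).2
      · intro hy
        obtain ⟨j, hj⟩ := hx ⟨y, hy⟩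
        refine ⟨j, ?_⟩
        have h2 := congrArg (fun z : Z => ((z : C) : Q)) hj
        simpa using h2
    change ((Subgroup.zpowers (((x : Z) : C) : Q)).subgroupOf C).index ≠ 0
    rw [h1]
    exact hZ.index_ne_zero

theorem artin_iff {P : ∀ (G : Type) [Group G], Prop} {S : Type} (M : CoxeterMatrix S) :
    P (ArtinGroup M) ↔ P (helper36.LT.Artin M) := by
  have h5 : {x : FreeGroup S | ∃ s t : S,
      x = alternating (FreeGroup.of s) (FreeGroup.of t) (M s t) *
        (alternating (FreeGroup.of t) (FreeGroup.of s) (M s t))⁻¹} = helper36.LT.artinRels M := by
    ext x
    constructor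
    · rintro ⟨s, t, rfl⟩
      exact ⟨(s, t), by rw [alt_eq, alt_eq]⟩
    · rintro ⟨⟨s, t⟩, rfl⟩
      exact ⟨s, t, by rw [alt_eq, alt_eq]⟩
  have h6 : ∀ (R R' : Set (FreeGroup S)), R = R' →
      (P (PresentedGroup R) ↔ P (PresentedGroup R')) := by
    rintro R R' rfl
    exact Iff.rfl
  exact h6 _ _ h5

/-- Let `P` be a class of groups with the properties `FJClosed` of the class of Farrell-Jones
groups, and `M` a Coxeter matrix with a block structure `b`. If the Artin group of every block is
two-dimensional or in `P`, then the Artin group of `M` is in `P`. -/
theorem result (P : ∀ (G : Type) [Group G], Prop) (hP : FJClosed P) (S ι : Type)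
    (M : CoxeterMatrix S) (b : S → ι) (hb : BlockStructure M b)
    (h : ∀ i : ι, TwoDimensional (block M b i) ∨ P (ArtinGroup (block M b i))) :
    P (ArtinGroup M) := by
  refine (artin_iff (P := P) M).2 ?_
  refine helper55.EV.block_P (closed hP)
    (fun n => helper50.LT.gl_numberField_of_arith (closedLT hP) hP.arithmetic (Fin n) ℚ) S ι M b
    ⟨hb.even, fun s s' t h1 h2 h3 => hb.commute s s' t t h1 rfl h2 h3⟩ ?_
  intro i
  rcases h i with h1 | h1
  · exact Or.inl h1
  · exact Or.inr ((artin_iff (P := P) _).1 h1)

/-- Special case: blocks which are two-dimensional. -/
theorem two_dimensional_blocks (P : ∀ (G : Type) [Group G], Prop) (hP : FJClosed P) (S ι : Type)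
    (M : CoxeterMatrix S) (b : S → ι) (hb : BlockStructure M b)
    (h : ∀ i : ι, TwoDimensional (block M b i)) : P (ArtinGroup M) :=
  result P hP S ι M b hb fun i => Or.inl (h i)

/-- Special case: even Artin groups. -/
theorem even_artin (P : ∀ (G : Type) [Group G], Prop) (hP : FJClosed P) (S : Type)
    (M : CoxeterMatrix S) (hM : ∀ s t : S, s ≠ t → Even (M s t)) : P (ArtinGroup M) := by
  refine result P hP S S M id ⟨hM, ?_⟩ ?_
  · rintro s s' t t' h1 h2 _ h3
    have h1' : s = s' := h1
    have h2' : t = t' := h2
    rw [← h1', ← h2']
    exact h3
  · rintro i
    left
    rintro ⟨r, hr⟩ ⟨s, hs⟩ t h1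
    exact absurd (Subtype.ext (hr.trans hs.symm)) h1

/-- Special case: two-dimensional Artin groups. -/
theorem two_dimensional_artin (P : ∀ (G : Type) [Group G], Prop) (hP : FJClosed P) (S : Type)
    (M : CoxeterMatrix S) (hM : TwoDimensional M) : P (ArtinGroup M) :=
  result P hP S Unit M (fun _ => ()) ⟨fun _ _ h => absurd rfl h, fun _ _ _ _ _ _ h => absurd rfl h⟩
    fun _ => Or.inl fun r s t h1 h2 h3 => hM r.1 s.1 t.1 (fun h => h1 (Subtype.ext h))
      (fun h => h2 (Subtype.ext h)) (fun h => h3 (Subtype.ext h))

end Pool.Agent.Results.MP_490288_al.BlockArtin
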